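import Pool.Agent.H265Z.CaseA
import Pool.Agent.H265Z.Weyl

/-!
# `X^n_{n+4}`, `n ≥ 6`, contains a `(-1)`-curve that is not a `(-1)`-Weyl line

The class is `(4n-3) h - 4 (e_1 + ⋯ + e_{n-6}) - 3 (e_{n-5} + ⋯ + e_{n+4})`.
-/

set_option autoImplicit false

namespace Pool.Agent.Results.MP_04a7d6_ag.AQ1

open Pool.Agent.H265Z

theorem result (n : ℕ) (hn : 6 ≤ n) :
    GeneralBlowupHas n (n + 4) (4 * (n : ℤ) - 3, fun i => if i.val < n - 6 then 4 else 3) ∧
    ¬ InWeylLineOrbit n (s := n + 4)
      (4 * (n : ℤ) - 3, fun i => if i.val < n - 6 then 4 else 3) := by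
  obtain ⟨j, rfl⟩ : ∃ j, n = j + 6 := ⟨n - 6, by omega⟩
  constructor
  · convert CaseA.general j using 2
    · push_cast; ring
    · funext i
      obtain ⟨i, rfl⟩ := (finSumFinEquiv (m := j) (n := 10)).surjective i
      rw [Equiv.symm_apply_apply]
      cases i with
      | inl k => simp
      | inr k => fin_cases k <;> simp [g1, CaseA.dmu]
  · refine not_line_of_dominant (s := j + 9) (by omega) (by omega) _ ?_ ?_ (by simp; omega)
    · have : ∑ i ∈ Finset.univ.filter (fun i : Fin (j + 9 + 1) => i.val ≤ j + 6),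
          (if i.val < j + 6 - 6 then (4 : ℤ) else 3) =
          ∑ i ∈ Finset.range (j + 10), if i ≤ j + 6 then (if i < j then (4 : ℤ) else 3) else 0 := by
        rw [Finset.sum_filter, Finset.sum_range]
        rfl
      rw [this, Finset.sum_range_add,
        Finset.sum_congr rfl (g := fun _ => (4 : ℤ)) fun i hi => by
          have := Finset.mem_range.1 hi
          rw [if_pos (by omega), if_pos this]]
      simp [Finset.sum_range_succ]
      omega
    · intro i
      simp only [Fin.val_succ, Fin.val_castSucc]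
      split_ifs <;> omega

end Pool.Agent.Results.MP_04a7d6_ag.AQ1
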