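import Pool.Agent.H265Z.CaseB
import Pool.Agent.H265Z.Weyl

/-!
# `X^n_{n+5}`, `n ≥ 4`, contains a `(-1)`-curve that is not a `(-1)`-Weyl line

The class is `(3n-2) h - 3 (e_1 + ⋯ + e_{n-4}) - 2 (e_{n-3} + ⋯ + e_{n+4}) - e_{n+5}`.
-/

set_option autoImplicit false

namespace Pool.Agent.Results.MP_04a7d6_ag.BQ2

open Pool.Agent.H265Z

theorem result (n : ℕ) (hn : 4 ≤ n) :
    GeneralBlowupHas n (n + 5)
      (3 * (n : ℤ) - 2, fun i => if i.val < n - 4 then 3 else if i.val < n + 4 then 2 else 1) ∧
    ¬ InWeylLineOrbit n (s := n + 5)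
      (3 * (n : ℤ) - 2, fun i => if i.val < n - 4 then 3 else if i.val < n + 4 then 2 else 1) := by
  obtain ⟨j, rfl⟩ : ∃ j, n = j + 4 := ⟨n - 4, by omega⟩
  constructor
  · convert CaseB.general j using 2
    · push_cast; ring
    · funext i
      obtain ⟨i, rfl⟩ := (finSumFinEquiv (m := j) (n := 9)).surjective i
      rw [Equiv.symm_apply_apply]
      cases i with
      | inl k => simp
      | inr k =>
        fin_cases k <;> simp [g1, CaseB.dmu]
        omega
  · refine not_line_of_quad _ _ ?_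
    have : ∑ i : Fin (j + 4 + 5),
        (if i.val < j + 4 - 4 then (3 : ℤ) else if i.val < j + 4 + 4 then 2 else 1) ^ 2 =
        ∑ i ∈ Finset.range (j + 9),
          (if i < j then (3 : ℤ) else if i < j + 8 then 2 else 1) ^ 2 := by
      rw [Finset.sum_range]
      rfl
    rw [quad, this, Finset.sum_range_add,
      Finset.sum_congr rfl (g := fun _ => (9 : ℤ)) fun i hi => by
        rw [if_pos (Finset.mem_range.1 hi)]; norm_num]
    simp [Finset.sum_range_succ]
    intro h
    nlinarith

end Pool.Agent.Results.MP_04a7d6_ag.BQ2
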